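import Pool.Agent.H91.Apep

set_option autoImplicit false

open H91.Apep in
theorem Pool.Agent.Results.MP_c12391_an.L1Sum.result :
    ∃ (E : ℕ → Type) (_ : ∀ n, NormedAddCommGroup (E n)) (_ : ∀ n, NormedSpace ℝ (E n)),
    (∀ n, CompleteSpace (E n)) ∧ Apep0 (lp E 1) ∧ ∀ n, ¬ Apep0 (E n) :=
  main
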